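import Mathlib

/-!
Real-variable lemmas for the bound of `v_θ / ρ` (project AXP, statement `StmBtP`).
-/

set_option autoImplicit false

open MeasureTheory Set Metric Filter Topology

namespace Pool.Agent.V8Lead

/-- Gronwall's lemma with a weak singularity at the time `T`, with explicit constants. -/
theorem gronE {T T₁ t' θ C : ℝ} {Y D' G k : ℝ → ℝ} (hθ : θ < 1) (hC : 0 ≤ C) (hT : t' < T)
    (hY : ∀ t ∈ Icc T₁ t', 0 ≤ Y t) (h1 : T₁ ≤ t')
    (hD1 : ∀ t ∈ Icc T₁ t', HasDerivAt Y (D' t) t)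
    (hD2 : ∀ t ∈ Icc T₁ t', D' t ≤ -G t + C * (T - t) ^ (-θ) * Y t + k t)
    (hG0 : ∀ t ∈ Icc T₁ t', 0 ≤ G t) (hk0 : ∀ t ∈ Icc T₁ t', 0 ≤ k t)
    (hGi : IntegrableOn G (Icc T₁ t')) (hki : IntegrableOn k (Icc T₁ t')) :
    Y t' + ∫ s in T₁..t', G s ≤ Real.exp (C / (1 - θ) * (T - T₁) ^ (1 - θ)) *
      (Y T₁ + ∫ s in T₁..t', k s) := by
  have h1θ : 0 < 1 - θ := by linarith
  obtain ⟨a, ha⟩ : ∃ a : ℝ, a = C / (1 - θ) := ⟨_, rfl⟩
  have ha0 : 0 ≤ a := by rw [ha]; positivity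
  obtain ⟨F, hF⟩ : ∃ F : ℝ → ℝ, F = fun t => (T - t) ^ (1 - θ) := ⟨_, rfl⟩
  have hF0 : ∀ t, t < T → 0 ≤ F t := by
    intro t ht
    rw [hF]
    exact Real.rpow_nonneg (by linarith) _
  have hFm : ∀ t ∈ Icc T₁ t', F t ≤ F T₁ := by
    intro t ht
    rw [hF]
    exact Real.rpow_le_rpow (by linarith [ht.2]) (by linarith [ht.1]) h1θ.le
  obtain ⟨E, hE⟩ : ∃ E : ℝ, E = Real.exp (a * F T₁) := ⟨_, rfl⟩
  have hE0 : 0 < E := by rw [hE]; exact Real.exp_pos _
  have hFd : ∀ t, t < T → HasDerivAt F (-((1 - θ) * (T - t) ^ (-θ))) t := by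
    intro t ht
    have h1 : HasDerivAt (fun s : ℝ => T - s) (-1) t := by
      simpa using (hasDerivAt_id t).const_sub T
    have h2 := h1.rpow_const (p := 1 - θ) (Or.inl (by linarith : T - t ≠ 0))
    rw [hF]
    have h3 : (1 - θ) - 1 = -θ := by ring
    rw [h3] at h2
    have h4 : -((1 - θ) * (T - t) ^ (-θ)) = -1 * (1 - θ) * (T - t) ^ (-θ) := by ring
    rw [h4]
    exact h2
  obtain ⟨W, hW⟩ : ∃ W : ℝ → ℝ, W = fun t => Y t * Real.exp (a * F t) := ⟨_, rfl⟩
  have hWd : ∀ t ∈ Icc T₁ t', HasDerivAt W (D' t * Real.exp (a * F t) +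
      Y t * (Real.exp (a * F t) * (a * (-((1 - θ) * (T - t) ^ (-θ)))))) t := by
    intro t ht
    rw [hW]
    exact (hD1 t ht).mul ((hFd t (ht.2.trans_lt hT)).const_mul a).exp
  have hWb : ∀ t ∈ Icc T₁ t', D' t * Real.exp (a * F t) +
      Y t * (Real.exp (a * F t) * (a * (-((1 - θ) * (T - t) ^ (-θ))))) ≤ -G t + E * k t := by
    intro t ht
    obtain ⟨x, hx⟩ : ∃ x : ℝ, x = Real.exp (a * F t) := ⟨_, rfl⟩
    obtain ⟨P, hP⟩ : ∃ P : ℝ, P = (T - t) ^ (-θ) := ⟨_, rfl⟩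
    have hx0 : 0 < x := by rw [hx]; exact Real.exp_pos _
    have hx1 : 1 ≤ x := by
      rw [hx]
      exact Real.one_le_exp (mul_nonneg ha0 (hF0 t (ht.2.trans_lt hT)))
    have hxE : x ≤ E := by
      rw [hx, hE, Real.exp_le_exp]
      exact mul_le_mul_of_nonneg_left (hFm t ht) ha0
    have h1 := hD2 t ht
    rw [← hP] at h1
    rw [← hx, ← hP]
    have h2 : a * (-((1 - θ) * P)) = -(C * P) := by
      rw [ha]
      field_simp
    rw [h2]
    have h4 := mul_le_mul_of_nonneg_right h1 hx0.le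
    have h5 : x * k t ≤ E * k t := mul_le_mul_of_nonneg_right hxE (hk0 t ht)
    have h6 : G t ≤ x * G t := le_mul_of_one_le_left (hG0 t ht) hx1
    have h7 : (-G t + C * P * Y t + k t) * x = -(x * G t) + Y t * (x * (C * P)) + x * k t := by
      ring
    rw [h7] at h4
    have h8 : Y t * (x * -(C * P)) = -(Y t * (x * (C * P))) := by ring
    rw [h8]
    linarith
  have h4 := intervalIntegral.sub_le_integral_of_hasDeriv_right_of_le (g := W)
    (φ := fun s => -G s + E * k s) h1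
    (fun s hs => (hWd s hs).continuousAt.continuousWithinAt)
    (fun s hs => (hWd s ⟨hs.1.le, hs.2.le⟩).hasDerivWithinAt)
    ((hGi.neg).add (hki.const_mul _))
    (fun s hs => hWb s ⟨hs.1.le, hs.2.le⟩)
  have hGii : IntervalIntegrable G volume T₁ t' :=
    (intervalIntegrable_iff_integrableOn_Icc_of_le h1).2 hGi
  have hkii : IntervalIntegrable k volume T₁ t' :=
    (intervalIntegrable_iff_integrableOn_Icc_of_le h1).2 hki
  have h5 : ∫ y in T₁..t', (-G y + E * k y) = -(∫ y in T₁..t', G y) + E * ∫ y in T₁..t', k y := by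
    have := intervalIntegral.integral_add (μ := volume) (f := fun y => -G y)
      (g := fun y => E * k y) hGii.neg (hkii.const_mul E)
    rw [this, intervalIntegral.integral_const_mul, intervalIntegral.integral_neg]
  rw [h5] at h4
  have h6 : Y t' ≤ W t' := by
    rw [hW]
    have h7 : 1 ≤ Real.exp (a * F t') := Real.one_le_exp (mul_nonneg ha0 (hF0 t' hT))
    exact le_mul_of_one_le_right (hY t' ⟨h1, le_rfl⟩) h7
  have h7 : W T₁ = E * Y T₁ := by rw [hW, hE]; ring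
  have h8 : Real.exp (C / (1 - θ) * (T - T₁) ^ (1 - θ)) = E := by rw [hE, ha, hF]
  rw [h8, mul_add]
  linarith

/-- The window: `∫ g² ≤ N` implies `∫ g ≤ 1` over intervals of length `1 / (N + 1)`. -/
theorem windowE {T₁ t' N : ℝ} {g : ℝ → ℝ} (hN : 0 ≤ N) (h1 : T₁ ≤ t')
    (hg : ContinuousOn g (Icc T₁ t')) (hgN : ∫ s in T₁..t', g s ^ 2 ≤ N) :
    ∫ s in (max T₁ (t' - 1 / (N + 1)))..t', g s ≤ 1 := by
  have hN1 : 0 < N + 1 := by linarith
  obtain ⟨a, ha⟩ : ∃ a : ℝ, a = max T₁ (t' - 1 / (N + 1)) := ⟨_, rfl⟩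
  rw [← ha]
  have hτ : 0 < 1 / (N + 1) := by positivity
  have ha1 : T₁ ≤ a := by rw [ha]; exact le_max_left _ _
  have ha2 : a ≤ t' := by rw [ha]; exact max_le h1 (by linarith)
  have ha3 : t' - 1 / (N + 1) ≤ a := by rw [ha]; exact le_max_right _ _
  have hc0 : ContinuousOn g (Icc a t') := hg.mono (Icc_subset_Icc ha1 le_rfl)
  have hi0 : IntervalIntegrable g volume a t' :=
    ContinuousOn.intervalIntegrable (by rw [uIcc_of_le ha2]; exact hc0)
  have hi1 : IntervalIntegrable (fun s => g s ^ 2) volume a t' :=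
    ContinuousOn.intervalIntegrable (by rw [uIcc_of_le ha2]; exact hc0.pow 2)
  have hi2 : IntervalIntegrable (fun s => g s ^ 2) volume T₁ a :=
    ContinuousOn.intervalIntegrable (by
      rw [uIcc_of_le ha1]; exact (hg.mono (Icc_subset_Icc le_rfl ha2)).pow 2)
  have h2 : ∫ s in a..t', g s ^ 2 ≤ N := by
    have h3 := intervalIntegral.integral_add_adjacent_intervals hi2 hi1
    have h4 : 0 ≤ ∫ s in T₁..a, g s ^ 2 :=
      intervalIntegral.integral_nonneg ha1 fun s _ => sq_nonneg _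
    linarith
  have h3 : ∫ s in a..t', g s ≤ ∫ s in a..t', (1 / (2 * (N + 1)) * g s ^ 2 + (N + 1) / 2) := by
    refine intervalIntegral.integral_mono_on ha2 hi0
      ((hi1.const_mul _).add intervalIntegrable_const) fun s _ => ?_
    have h4 : 0 ≤ (g s - (N + 1)) ^ 2 / (2 * (N + 1)) := by positivity
    have h5 : (g s - (N + 1)) ^ 2 / (2 * (N + 1))
        = 1 / (2 * (N + 1)) * g s ^ 2 + (N + 1) / 2 - g s := by
      field_simp
      ring
    linarith
  refine h3.trans ?_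
  rw [intervalIntegral.integral_add (hi1.const_mul _) intervalIntegrable_const,
    intervalIntegral.integral_const_mul, intervalIntegral.integral_const, smul_eq_mul]
  have h5 : 1 / (2 * (N + 1)) * ∫ s in a..t', g s ^ 2 ≤ 1 / (2 * (N + 1)) * N :=
    mul_le_mul_of_nonneg_left h2 (by positivity)
  have h6 : (t' - a) * ((N + 1) / 2) ≤ 1 / (N + 1) * ((N + 1) / 2) :=
    mul_le_mul_of_nonneg_right (by linarith) (by positivity)
  have h7 : 1 / (N + 1) * ((N + 1) / 2) = 1 / 2 := by field_simp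
  have h8 : 1 / (2 * (N + 1)) * N ≤ 1 / 2 := by
    rw [div_mul_eq_mul_div, one_mul, div_le_div_iff₀ (by positivity) (by norm_num)]
    linarith
  linarith

/-- Continuous induction for a continuous function on a compact set. -/
theorem contInd {X : Type*} [TopologicalSpace X] {S : Set X} (hS : IsCompact S)
    {T₁ T M : ℝ} {f : ℝ → X → ℝ} (hf : ContinuousOn (fun z : ℝ × X => f z.1 z.2) (Ico T₁ T ×ˢ S))
    (h0 : ∀ x ∈ S, |f T₁ x| < M)
    (hstep : ∀ t' ∈ Ico T₁ T, (∀ t ∈ Icc T₁ t', ∀ x ∈ S, |f t x| ≤ M) → ∀ x ∈ S, |f t' x| < M) :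
    ∀ t ∈ Ico T₁ T, ∀ x ∈ S, |f t x| ≤ M := by
  intro b hb
  by_contra hcon
  push Not at hcon
  obtain ⟨x₀, hx₀, hbad⟩ := hcon
  -- the set of bad points
  obtain ⟨Q, hQ⟩ : ∃ Q : Set (ℝ × X), Q = Icc T₁ b ×ˢ S := ⟨_, rfl⟩
  have hQc : IsCompact Q := by rw [hQ]; exact isCompact_Icc.prod hS
  have hsub : Q ⊆ Ico T₁ T ×ˢ S := by
    rw [hQ]
    exact prod_mono (fun t ht => ⟨ht.1, ht.2.trans_lt hb.2⟩) le_rfl
  have hfc : ContinuousOn (fun z : ℝ × X => |f z.1 z.2|) Q := (hf.mono hsub).abs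
  have : CompactSpace Q := isCompact_iff_compactSpace.1 hQc
  have hgc : Continuous (fun z : Q => |f z.1.1 z.1.2|) := continuousOn_iff_continuous_domRestrict.1 hfc
  have hBc : IsCompact {z : Q | M ≤ |f z.1.1 z.1.2|} :=
    (isClosed_le continuous_const hgc).isCompact
  have hPc : IsCompact ((fun z : Q => z.1.1) '' {z : Q | M ≤ |f z.1.1 z.1.2|}) :=
    hBc.image (continuous_fst.comp continuous_subtype_val)
  have hne : ((fun z : Q => z.1.1) '' {z : Q | M ≤ |f z.1.1 z.1.2|}).Nonempty := by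
    refine ⟨b, ⟨⟨(b, x₀), by rw [hQ]; exact ⟨⟨hb.1, le_rfl⟩, hx₀⟩⟩, hbad.le, rfl⟩⟩
  obtain ⟨t, ⟨⟨⟨z, hz⟩, hzM, rfl⟩, hleast⟩⟩ := hPc.exists_isLeast hne
  obtain ⟨t, x⟩ := z
  simp only at hzM hleast
  have hz' : (t, x) ∈ Icc T₁ b ×ˢ S := by rw [← hQ]; exact hz
  have ht : t ∈ Ico T₁ T := (hsub hz).1
  have hlt : ∀ s ∈ Ico T₁ t, ∀ y ∈ S, |f s y| < M := by
    intro s hs y hy
    by_contra hc
    push Not at hc
    have h1 := hleast ⟨⟨(s, y), by rw [hQ]; exact ⟨⟨hs.1, hs.2.le.trans hz'.1.2⟩, hy⟩⟩, hc, rfl⟩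
    simp only at h1
    linarith [hs.2]
  have hle : ∀ s ∈ Icc T₁ t, ∀ y ∈ S, |f s y| ≤ M := by
    intro s hs y hy
    rcases hs.2.lt_or_eq with h | h
    · exact (hlt s ⟨hs.1, h⟩ y hy).le
    · subst h
      rcases hs.1.lt_or_eq with h1 | h1
      · -- the limit from the left
        have hcs : ContinuousWithinAt (fun r => |f r y|) (Ico T₁ T) s := by
          have h2 : ContinuousOn (fun r => f r y) (Ico T₁ T) :=
            hf.comp (f := fun r : ℝ => (r, y)) (by fun_prop) (fun r hr => ⟨hr, hy⟩)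
          exact (h2 s ht).abs
        have hcs' : Tendsto (fun r => |f r y|) (𝓝[Ico T₁ s] s) (𝓝 |f s y|) :=
          hcs.mono_left (nhdsWithin_mono _ fun r hr => ⟨hr.1, hr.2.trans ht.2⟩)
        have hne' : (𝓝[Ico T₁ s] s).NeBot := by
          rw [← mem_closure_iff_nhdsWithin_neBot, closure_Ico h1.ne]
          exact ⟨h1.le, le_rfl⟩
        refine le_of_tendsto hcs' ?_
        filter_upwards [self_mem_nhdsWithin] with r hr
        exact (hlt r hr y hy).le
      · rw [← h1]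
        exact (h0 y hy).le
  have h9 : |f t x| < M := hstep t ht hle x hz'.2
  exact absurd h9 (not_lt.2 hzM)

end Pool.Agent.V8Lead
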