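import Pool.Agent.Q67.AXI.Defs3
import Pool.Agent.Q285.AXI.Yi
import Pool.Agent.V8Lead.BtR

/-!
Project AXP, the missing statement `StmBtP`: the bound of `v_θ / ρ`.
-/

set_option autoImplicit false

open MeasureTheory Set Metric Filter Topology
open scoped ContDiff

namespace Pool.Agent.V8Lead

open H459R3.NS Pool.Agent.W268.NS Pool.Agent.Q67.VD
open Pool.Agent.Q85.CC Pool.Agent.Q85.CL Pool.Agent.TH305.AX Pool.Agent.Q67.AXI
open Pool.Agent.Q285.AXI (slice co_mono gsq_nn dis_int)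

theorem PM_le' {M P s : ℝ} (hM : 1 ≤ M) (hP : 0 < P) (hs : 0 ≤ s) :
    PM M P ≤ M ^ (-(s / 8)) * P ^ (-(1 + s)) := by
  have hM0 : 0 < M := by linarith
  unfold PM
  split_ifs with h
  · have h1 : M ^ (s / 8) ≤ P ^ (-s) := by
      have h2 := Real.rpow_le_rpow_of_nonpos hP h.le (by linarith : -s ≤ 0)
      rw [← Real.rpow_mul hM0.le] at h2
      have h3 : -(1 / 8 : ℝ) * -s = s / 8 := by ring
      rwa [h3] at h2
    have h4 : P ^ (-(1 + s)) = P⁻¹ * P ^ (-s) := by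
      rw [neg_add, Real.rpow_add hP, Real.rpow_neg_one]
    have h5 : M ^ (-(s / 8)) * M ^ (s / 8) = 1 := by
      rw [← Real.rpow_add hM0]
      simp
    have h6 : 0 < M ^ (-(s / 8)) := Real.rpow_pos_of_pos hM0 _
    have h7 := mul_le_mul_of_nonneg_left h1 h6.le
    rw [h5] at h7
    rw [h4]
    have h8 : 0 < P⁻¹ := inv_pos.2 hP
    nlinarith
  · exact mul_nonneg (Real.rpow_nonneg hM0.le _) (Real.rpow_nonneg hP.le _)

lemma cy_cpt (c r h : ℝ) : IsCompact (Cy c r h) := by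
  have hcl : IsClosed (Cy c r h) := by
    have h1 : Continuous (fun x : V => sg x) := by unfold sg; fun_prop
    have h2 : Continuous (fun x : V => |x 2 - c|) := by fun_prop
    exact (isClosed_le h1 continuous_const).inter (isClosed_le h2 continuous_const)
  refine Metric.isCompact_of_isClosed_isBounded hcl ?_
  refine (Metric.isBounded_closedBall (x := (0 : V)) (r := |r| + (|h| + |c|))).subset ?_
  intro x hx
  have e1 : sg x ≤ r ^ 2 := hx.1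
  have e2 : |x 2 - c| ≤ h := hx.2
  have e0 : 0 ≤ |r| := abs_nonneg r
  have e0' : 0 ≤ |h| := abs_nonneg h
  have e0'' : 0 ≤ |c| := abs_nonneg c
  rw [mem_closedBall, dist_zero_right, pi_norm_le_iff_of_nonneg (by linarith)]
  have e3 : x 0 ^ 2 + x 1 ^ 2 ≤ r ^ 2 := e1
  intro i
  rw [Real.norm_eq_abs]
  fin_cases i
  · show |x 0| ≤ _
    have : |x 0| ≤ |r| := sq_le_sq.1 (by nlinarith [sq_nonneg (x 1)])
    linarith
  · show |x 1| ≤ _
    have : |x 1| ≤ |r| := sq_le_sq.1 (by nlinarith [sq_nonneg (x 0)])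
    linarith
  · show |x 2| ≤ _
    have h3 : |x 2| ≤ |x 2 - c| + |c| := by
      have := abs_add_le (x 2 - c) c
      simpa using this
    have h4 := le_abs_self h
    linarith

lemma GD_nn (f : V → ℝ) : 0 ≤ GD f :=
  integral_nonneg fun _ => Finset.sum_nonneg fun _ _ => sq_nonneg _

theorem btP : StmAlg → StmJnt → StmDt → StmU → StmSm → StmYdP → StmBtP := by
  intro _ hJnt hDt hU hSm hYd
  intro T E c R H K r h r1 h1 T₁ C' Cc α' θ u p φ hA hK hr1 hr1r hrR hr2 hh1 hh1h hhH hh hT₁ hT₁T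
    hC' hCc hα hα2 hθ0 hθ1 hcut hout hcirc
  have hr0 : 0 < r := hr1.trans hr1r
  have hT0 : 0 < T := hT₁.trans hT₁T
  have hsub : Co c r h ⊆ Co c R H := co_mono hr0 hrR hhH
  have hsub1 : Cy c r1 h1 ⊆ Co c r h := fun x hx =>
    ⟨hx.1.trans_lt (by nlinarith), hx.2.trans_lt hh1h⟩
  have hcc : Co c r h ⊆ Cy c r h := fun x hx => ⟨hx.1.le, hx.2.le⟩
  have hI : ∀ t ∈ Ico T₁ T, t ∈ Ioo 0 T := fun t ht => ⟨hT₁.trans_le ht.1, ht.2⟩
  have hr1' : r ≤ 1 := by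
    by_contra hcon
    push Not at hcon
    have : Real.exp (-2) < 1 := by
      rw [Real.exp_lt_one_iff]
      norm_num
    nlinarith
  -- the exponents
  obtain ⟨s, hs⟩ : ∃ s : ℝ, s = (1 - θ) / (2 * θ) := ⟨_, rfl⟩
  have hs0 : 0 < s := by
    rw [hs]
    have : 0 < 1 - θ := by linarith
    positivity
  obtain ⟨θ', hθ'⟩ : ∃ θ' : ℝ, θ' = (1 + θ) / 2 := ⟨_, rfl⟩
  have hθ'1 : θ' < 1 := by rw [hθ']; linarith
  have hθs : θ * (1 + s) = θ' := by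
    rw [hs, hθ']
    field_simp
    ring
  obtain ⟨ε₀, hε₀⟩ : ∃ ε₀ : ℝ, ε₀ = min (1 / 16) (s / 8) := ⟨_, rfl⟩
  have hε0 : 0 < ε₀ := by rw [hε₀]; exact lt_min (by norm_num) (by positivity)
  have hε1 : ε₀ ≤ 1 / 16 := by rw [hε₀]; exact min_le_left _ _
  have hε2 : ε₀ ≤ s / 8 := by rw [hε₀]; exact min_le_right _ _
  obtain ⟨C₀, M₀, hC₀, hM₀, hyd⟩ := hYd T E c R H K r h r1 h1 T₁ C' Cc α' θ ε₀ u p φ hA hK hr1
    hr1r hrR hr2 hh1 hh1h hhH hh hT₁ hT₁T hC' hCc hα hα2 hε0 hcut hout hcirc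
  -- the dissipation
  obtain ⟨G, hG⟩ : ∃ G : ℝ → ℝ, G = fun t => ∫ x in Co c r h, W221.NS.gsq (u t) x := ⟨_, rfl⟩
  have hGint : IntegrableOn G (Ioo 0 T) := by rw [hG]; exact dis_int hsub hA.dis
  have hGnn : ∀ t, 0 ≤ G t := by
    intro t
    rw [hG]
    exact integral_nonneg fun x => gsq_nn _ x
  obtain ⟨D, hD⟩ : ∃ D : ℝ, D = ∫ s in Ioo 0 T, G s := ⟨_, rfl⟩
  have hD0 : 0 ≤ D := by rw [hD]; exact integral_nonneg fun x => hGnn x
  obtain ⟨-, jW, jJ, jO⟩ := hJnt T u hA.smooth_u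
  obtain ⟨GO, hGO⟩ : ∃ GO : ℝ → ℝ, GO = fun t => GD (fun x => φ x * OO (u t) x) := ⟨_, rfl⟩
  have hGOc : ContinuousOn GO (Ico T₁ T) := by
    rw [hGO]
    exact (hDt T (fun t => OO (u t)) φ jO hcut.sm hcut.cs).1.mono hI
  have hGO0 : ∀ t, 0 ≤ GO t := by
    intro t
    rw [hGO]
    exact GD_nn _
  have hYJ : ∀ t, 0 ≤ ∫ x, φ x ^ 2 * JJ (u t) x ^ 2 := fun t =>
    integral_nonneg fun x => mul_nonneg (sq_nonneg _) (sq_nonneg _)
  have hYO : ∀ t, 0 ≤ ∫ x, φ x ^ 2 * OO (u t) x ^ 2 := fun t =>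
    integral_nonneg fun x => mul_nonneg (sq_nonneg _) (sq_nonneg _)
  obtain ⟨y₀, hy₀⟩ : ∃ y₀ : ℝ, y₀ = (∫ x, φ x ^ 2 * JJ (u T₁) x ^ 2)
      + ∫ x, φ x ^ 2 * OO (u T₁) x ^ 2 := ⟨_, rfl⟩
  have hy00 : 0 ≤ y₀ := by rw [hy₀]; exact add_nonneg (hYJ _) (hYO _)
  -- the bound of `UU`
  obtain ⟨C₁, hC₁, hU'⟩ := hU K c r h r1 h1 hK hr1 hr1r hr1' hh1 hh1h hh
  have hUt : ∀ t ∈ Ico T₁ T, ∀ x ∈ Cy c r1 h1, |UU (u t) x| ≤ √(C₁ * (1 + GO t)) := by
    intro t ht x hx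
    obtain ⟨-, -, u3, -⟩ := hU' (u t) φ (slice hA.smooth_u (hI t ht)) (hA.axi t (hI t ht))
      (fun x hx => hA.divfree t (hI t ht) x (hsub hx)) hcut (hout t ht)
    have h3 := u3 x
    rw [hcut.one x hx, one_mul] at h3
    apply Real.abs_le_sqrt at h3
    rw [hGO]
    exact h3
  -- smoothing
  obtain ⟨C₃, hC₃, hsm⟩ := hSm T E c R H r1 h1 T₁ K Cc u p hA hr1 (hr1r.trans hrR) hh1
    (hh1h.trans hhH) hT₁ hT₁T (by
      intro t ht x hx
      refine ⟨(hcirc t ht x (hsub1 hx)).1, fun hbd => ?_⟩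
      have hxo : x ∈ Out c r h r1 h1 := by
        refine ⟨⟨(hsub1 hx).1.le, (hsub1 hx).2.le⟩, ?_⟩
        rcases hbd with hbd | hbd
        · exact Or.inl hbd.ge
        · exact Or.inr hbd.ge
      exact (hout t ht x hxo).2.2.1)
  -- the constants
  obtain ⟨L, hL⟩ : ∃ L : ℝ, L = Real.exp (C₀ / (1 - θ') * (T - T₁) ^ (1 - θ')) := ⟨_, rfl⟩
  have hL0 : 0 < L := by rw [hL]; exact Real.exp_pos _
  obtain ⟨A₁, hA₁⟩ : ∃ A₁ : ℝ, A₁ = L * (y₀ + 1 + C₀ * (T + D)) := ⟨_, rfl⟩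
  have hA₁0 : 0 ≤ A₁ := by rw [hA₁]; positivity
  obtain ⟨N₁, hN₁⟩ : ∃ N₁ : ℝ, N₁ = C₁ * (T + A₁) := ⟨_, rfl⟩
  have hN₁0 : 0 ≤ N₁ := by rw [hN₁]; positivity
  obtain ⟨A₂, hA₂⟩ : ∃ A₂ : ℝ, A₂ = C₃ * (N₁ + 1) := ⟨_, rfl⟩
  -- the initial bound
  have hSc : IsCompact (Cy c r h) := cy_cpt c r h
  have hT₁I : T₁ ∈ Ico T₁ T := ⟨le_rfl, hT₁T⟩
  have hWc : ContinuousOn (fun z : ℝ × V => WW (u z.1) z.2) (Ico T₁ T ×ˢ Cy c r h) :=
    jW.continuousOn.mono (prod_mono (fun t ht => hI t ht) (subset_univ _))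
  obtain ⟨B₀, hB₀⟩ : ∃ B₀ : ℝ, ∀ x ∈ Cy c r h, |WW (u T₁) x| ≤ B₀ := by
    have h2 : ContinuousOn (fun x => WW (u T₁) x) (Cy c r h) :=
      hWc.comp (f := fun x : V => (T₁, x)) (by fun_prop) (fun x hx => ⟨hT₁I, hx⟩)
    obtain ⟨B₀, hB₀⟩ := hSc.exists_bound_of_continuousOn h2
    exact ⟨B₀, fun x hx => by simpa [Real.norm_eq_abs] using hB₀ x hx⟩
  -- the choice of `M`
  obtain ⟨M, hMM₀, hM1, hMA, hMK, hMB⟩ : ∃ M : ℝ, M₀ ≤ M ∧ 1 ≤ M ∧ A₂ < M ^ (9 / 16 : ℝ) ∧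
      K < M ∧ B₀ < M := by
    have t1 : Tendsto (fun M : ℝ => M ^ (9 / 16 : ℝ)) atTop atTop :=
      tendsto_rpow_atTop (by norm_num)
    exact ((eventually_ge_atTop M₀).and ((eventually_ge_atTop 1).and
      ((t1.eventually_gt_atTop A₂).and ((eventually_gt_atTop K).and
        (eventually_gt_atTop B₀))))).exists
  have hM0 : 0 < M := by linarith
  obtain ⟨l, hl1, hl2, hl⟩ := hyd M hMM₀
  have hl0 : 0 < l := (Real.rpow_pos_of_pos hM0 _).trans_le hl1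
  refine ⟨M, hM0.le, fun t ht x hx => ?_⟩
  refine contInd hSc (T₁ := T₁) (T := T) (M := M) (f := fun t x => WW (u t) x) hWc
    (fun x hx => (hB₀ x hx).trans_lt hMB) ?_ t ht x (hcc hx)
  -- the step
  intro t' ht' hb x hx
  have hIc : ∀ t ∈ Icc T₁ t', t ∈ Ico T₁ T := fun t ht => ⟨ht.1, ht.2.trans_lt ht'.2⟩
  by_cases hxi : x ∈ Cy c r1 h1
  swap
  · have hxo : x ∈ Out c r h r1 h1 := by
      refine ⟨hx, ?_⟩
      by_contra hcon
      push Not at hcon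
      exact hxi ⟨hcon.1.le, hcon.2.le⟩
    exact (hout t' ht' x hxo).2.2.1.trans_lt hMK
  -- the energy
  obtain ⟨Y, hY⟩ : ∃ Y : ℝ → ℝ, Y = fun s => (∫ x, φ x ^ 2 * JJ (u s) x ^ 2)
      + l * ∫ x, φ x ^ 2 * OO (u s) x ^ 2 := ⟨_, rfl⟩
  have hYnn : ∀ t, 0 ≤ Y t := by
    intro t
    rw [hY]
    exact add_nonneg (hYJ t) (mul_nonneg hl0.le (hYO t))
  have hder : ∀ t ∈ Icc T₁ t', ∃ D' : ℝ, HasDerivAt Y D' t ∧
      D' ≤ -(l * GO t) + C₀ * (T - t) ^ (-θ') * (Y t + 1) + C₀ * M ^ (3 / 8 : ℝ) * (1 + G t) := by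
    intro t ht
    have htT : 0 < T - t := by linarith [(hIc t ht).2]
    obtain ⟨D', hD1, hD2⟩ := hl t (hIc t ht) (fun x hx => hb t ht x (hcc hx))
    refine ⟨D', by rw [hY]; exact hD1, hD2.trans ?_⟩
    have g2 := GD_nn (fun x => φ x * JJ (u t) x)
    have g4 : 0 < (T - t) ^ θ := Real.rpow_pos_of_pos htT _
    have g5 := PM_le' hM1 g4 hs0.le
    rw [← Real.rpow_mul htT.le, mul_neg, hθs] at g5
    obtain ⟨Q, hQ⟩ : ∃ Q : ℝ, Q = (T - t) ^ (-θ') := ⟨_, rfl⟩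
    have hQ0 : 0 < Q := by rw [hQ]; exact Real.rpow_pos_of_pos htT _
    rw [← hQ] at g5 ⊢
    have g8 : Y t = (∫ x, φ x ^ 2 * JJ (u t) x ^ 2) + l * ∫ x, φ x ^ 2 * OO (u t) x ^ 2 := by
      rw [hY]
    rw [← g8]
    -- `M ^ (-(s/8)) ≤ l` and `M ^ (-(s/8)) ≤ 1`
    have m1 : M ^ (-(s / 8)) ≤ l :=
      (Real.rpow_le_rpow_of_exponent_le hM1 (by linarith)).trans hl1
    have m2 : M ^ (-(s / 8)) ≤ 1 := m1.trans hl2
    have m3 : 0 < M ^ (-(s / 8)) := Real.rpow_pos_of_pos hM0 _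
    have m4 : 0 ≤ Y t / l := div_nonneg (hYnn t) hl0.le
    have g6 : PM M ((T - t) ^ θ) * (1 + Y t / l) ≤ Q * (Y t + 1) := by
      have e1 : PM M ((T - t) ^ θ) * (1 + Y t / l) ≤ M ^ (-(s / 8)) * Q * (1 + Y t / l) :=
        mul_le_mul_of_nonneg_right g5 (by linarith)
      have e2 : M ^ (-(s / 8)) * (Y t / l) ≤ Y t := by
        have e3 : M ^ (-(s / 8)) * (Y t / l) ≤ l * (Y t / l) :=
          mul_le_mul_of_nonneg_right m1 m4
        rwa [mul_div_cancel₀ _ hl0.ne'] at e3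
      have e4 : M ^ (-(s / 8)) * Q * (1 + Y t / l)
          = Q * (M ^ (-(s / 8)) + M ^ (-(s / 8)) * (Y t / l)) := by ring
      rw [e4] at e1
      have e5 : Q * (M ^ (-(s / 8)) + M ^ (-(s / 8)) * (Y t / l)) ≤ Q * (1 + Y t) :=
        mul_le_mul_of_nonneg_left (by linarith) hQ0.le
      linarith
    have g7 : C₀ * PM M ((T - t) ^ θ) * (1 + Y t / l) ≤ C₀ * Q * (Y t + 1) := by
      have := mul_le_mul_of_nonneg_left g6 hC₀
      linarith
    have g9 : GO t = GD (fun x => φ x * OO (u t) x) := by rw [hGO]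
    rw [← g9]
    have g10 : G t = ∫ x in Co c r h, W221.NS.gsq (u t) x := by rw [hG]
    rw [← g10]
    linarith
  choose! D' hD1 hD2 using hder
  have hIcc : Icc T₁ t' ⊆ Ioo 0 T := fun s hs => hI s (hIc s hs)
  have hGi : IntegrableOn G (Icc T₁ t') := hGint.mono_set hIcc
  have hGOi : IntegrableOn GO (Icc T₁ t') :=
    (hGOc.mono hIc).integrableOn_compact isCompact_Icc
  have h1i : IntegrableOn (fun _ : ℝ => (1 : ℝ)) (Icc T₁ t') :=
    integrableOn_const (by rw [Real.volume_Icc]; exact ENNReal.ofReal_ne_top)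
  have hki : IntegrableOn (fun t => C₀ * M ^ (3 / 8 : ℝ) * (1 + G t)) (Icc T₁ t') :=
    (h1i.add hGi).const_mul _
  have hm38 : 1 ≤ M ^ (3 / 8 : ℝ) := Real.one_le_rpow hM1 (by norm_num)
  have hmain := gronE (T := T) (T₁ := T₁) (t' := t') (θ := θ') (C := C₀) (Y := fun t => Y t + 1)
    (D' := D') (G := fun t => l * GO t) (k := fun t => C₀ * M ^ (3 / 8 : ℝ) * (1 + G t))
    hθ'1 hC₀ ht'.2 (fun t _ => by linarith [hYnn t]) ht'.1
    (fun t ht => (hD1 t ht).add_const 1) (fun t ht => hD2 t ht)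
    (fun t _ => mul_nonneg hl0.le (hGO0 t)) (fun t _ => by have := hGnn t; positivity)
    (hGOi.const_mul l) hki
  rw [intervalIntegral.integral_const_mul, intervalIntegral.integral_const_mul, ← hL] at hmain
  have hGii : IntervalIntegrable G volume T₁ t' :=
    (intervalIntegrable_iff_integrableOn_Icc_of_le ht'.1).2 hGi
  have hGOii : IntervalIntegrable GO volume T₁ t' :=
    (intervalIntegrable_iff_integrableOn_Icc_of_le ht'.1).2 hGOi
  have hGD : ∫ s in T₁..t', (1 + G s) ≤ T + D := by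
    rw [intervalIntegral.integral_add (by simp) hGii]
    rw [intervalIntegral.integral_const, smul_eq_mul, mul_one]
    have h6 : ∫ s in T₁..t', G s ≤ D := by
      rw [intervalIntegral.integral_of_le ht'.1, hD]
      refine setIntegral_mono_set hGint ?_ ?_
      · exact Eventually.of_forall fun s => hGnn s
      · exact (Ioc_subset_Icc_self.trans hIcc).eventuallyLE
    have := ht'.2
    linarith
  -- the bound of the integral of `GO`
  have hYT : Y T₁ ≤ y₀ := by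
    rw [hY, hy₀]
    have := mul_le_mul_of_nonneg_right hl2 (hYO T₁)
    simp only
    linarith
  have hGOb : ∫ s in T₁..t', GO s ≤ A₁ * M ^ (7 / 16 : ℝ) := by
    have e1 : l * ∫ s in T₁..t', GO s ≤ L * (y₀ + 1 + C₀ * M ^ (3 / 8 : ℝ) * (T + D)) := by
      have e2 : C₀ * M ^ (3 / 8 : ℝ) * ∫ s in T₁..t', (1 + G s)
          ≤ C₀ * M ^ (3 / 8 : ℝ) * (T + D) :=
        mul_le_mul_of_nonneg_left hGD (by positivity)
      have e3 : L * (Y T₁ + 1 + C₀ * M ^ (3 / 8 : ℝ) * ∫ s in T₁..t', (1 + G s))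
          ≤ L * (y₀ + 1 + C₀ * M ^ (3 / 8 : ℝ) * (T + D)) :=
        mul_le_mul_of_nonneg_left (by linarith) hL0.le
      have e4 := hYnn t'
      linarith
    have e5 : y₀ + 1 + C₀ * M ^ (3 / 8 : ℝ) * (T + D)
        ≤ (y₀ + 1 + C₀ * (T + D)) * M ^ (3 / 8 : ℝ) := by
      have : y₀ + 1 ≤ (y₀ + 1) * M ^ (3 / 8 : ℝ) :=
        le_mul_of_one_le_right (by linarith) hm38
      have e6 : (y₀ + 1 + C₀ * (T + D)) * M ^ (3 / 8 : ℝ)
          = (y₀ + 1) * M ^ (3 / 8 : ℝ) + C₀ * M ^ (3 / 8 : ℝ) * (T + D) := by ring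
      linarith
    have e7 : l * ∫ s in T₁..t', GO s ≤ A₁ * M ^ (3 / 8 : ℝ) := by
      refine e1.trans ((mul_le_mul_of_nonneg_left e5 hL0.le).trans_eq ?_)
      rw [hA₁]
      ring
    have e8 : M ^ (-(1 / 16) : ℝ) ≤ l :=
      (Real.rpow_le_rpow_of_exponent_le hM1 (by linarith)).trans hl1
    have e9 : 0 ≤ ∫ s in T₁..t', GO s :=
      intervalIntegral.integral_nonneg ht'.1 fun s _ => hGO0 s
    have e10 : M ^ (-(1 / 16) : ℝ) * ∫ s in T₁..t', GO s ≤ A₁ * M ^ (3 / 8 : ℝ) :=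
      (mul_le_mul_of_nonneg_right e8 e9).trans e7
    have e11 : M ^ (1 / 16 : ℝ) * M ^ (-(1 / 16) : ℝ) = 1 := by
      rw [← Real.rpow_add hM0]
      norm_num
    have e12 : M ^ (1 / 16 : ℝ) * M ^ (3 / 8 : ℝ) = M ^ (7 / 16 : ℝ) := by
      rw [← Real.rpow_add hM0]
      norm_num
    have e13 := mul_le_mul_of_nonneg_left e10 (Real.rpow_nonneg hM0.le (1 / 16 : ℝ))
    rw [← mul_assoc, e11, one_mul] at e13
    calc ∫ s in T₁..t', GO s ≤ M ^ (1 / 16 : ℝ) * (A₁ * M ^ (3 / 8 : ℝ)) := e13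
      _ = A₁ * (M ^ (1 / 16 : ℝ) * M ^ (3 / 8 : ℝ)) := by ring
      _ = A₁ * M ^ (7 / 16 : ℝ) := by rw [e12]
  have hm716 : 1 ≤ M ^ (7 / 16 : ℝ) := Real.one_le_rpow hM1 (by norm_num)
  obtain ⟨g, hg⟩ : ∃ g : ℝ → ℝ, g = fun t => √(C₁ * (1 + GO t)) := ⟨_, rfl⟩
  have hgc : ContinuousOn g (Ico T₁ T) := by
    rw [hg]
    exact (continuousOn_const.mul (continuousOn_const.add hGOc)).sqrt
  have hg2 : ∀ t, g t ^ 2 = C₁ * (1 + GO t) := by
    intro t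
    rw [hg]
    exact Real.sq_sqrt (mul_nonneg hC₁ (by linarith [hGO0 t]))
  obtain ⟨N, hN⟩ : ∃ N : ℝ, N = N₁ * M ^ (7 / 16 : ℝ) := ⟨_, rfl⟩
  have hN0 : 0 ≤ N := by rw [hN]; positivity
  have hgN : ∫ s in T₁..t', g s ^ 2 ≤ N := by
    simp only [hg2]
    rw [intervalIntegral.integral_const_mul, intervalIntegral.integral_add (by simp) hGOii,
      intervalIntegral.integral_const, smul_eq_mul, mul_one, hN, hN₁, mul_assoc]
    apply mul_le_mul_of_nonneg_left _ hC₁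
    have e1 : t' - T₁ ≤ T * M ^ (7 / 16 : ℝ) := by
      have : T ≤ T * M ^ (7 / 16 : ℝ) := le_mul_of_one_le_right hT0.le hm716
      linarith [ht'.2]
    rw [add_mul]
    linarith
  have hwin := windowE hN0 ht'.1 (hgc.mono hIc) hgN
  have hN1 : 0 < N + 1 := by linarith
  have h2 := hsm (1 / (N + 1)) ⟨by positivity, by
    rw [div_le_one hN1]
    linarith⟩ t' ht' g (hgc.mono hIc) (fun s hs y hy => by
      rw [hg]
      exact hUt s (hIc s hs) y hy) hwin x hxi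
  rw [div_div_eq_mul_div, div_one] at h2
  refine h2.trans_lt ?_
  -- `C₃ (N + 1) ≤ A₂ M ^ (7/16) < M`
  have e1 : C₃ * (N + 1) ≤ A₂ * M ^ (7 / 16 : ℝ) := by
    rw [hA₂, hN, mul_assoc]
    apply mul_le_mul_of_nonneg_left _ hC₃
    rw [add_mul]
    linarith
  have e2 : A₂ * M ^ (7 / 16 : ℝ) < M ^ (9 / 16 : ℝ) * M ^ (7 / 16 : ℝ) :=
    mul_lt_mul_of_pos_right hMA (by linarith)
  have e3 : M ^ (9 / 16 : ℝ) * M ^ (7 / 16 : ℝ) = M := by
    rw [← Real.rpow_add hM0]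
    norm_num
  rw [e3] at e2
  linarith

end Pool.Agent.V8Lead
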