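import Pool.Agent.Q67.AXI.Fin2
import Pool.Agent.Q67.AXI.Fin4
import Pool.Agent.Q65.AXI.MainP
import Pool.Agent.Q65.AXI.LogP
import Pool.Agent.Q261.AXQ.MainQ
import Pool.Agent.Q261.AXQ.WbQ
import Pool.Agent.Q261.AXQ.YdQ
import Pool.Agent.Q261.AXQ.T1Q
import Pool.Agent.Q261.AXQ.T2Q
import Pool.Agent.Q177.AXI.Uw
import Pool.Agent.Q177.AXI.LogQ
import Pool.Agent.Q177.AXI.FinW
import Pool.Agent.Q175.AX.Sm
import Pool.Agent.Q175.AX.Har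
import Pool.Agent.Q175.AX.Ell
import Pool.Agent.Q175.AX.UU
import Pool.Agent.Q175.AX.Rho
import Pool.Agent.Q98.AXI.EllW
import Pool.Agent.Q98.AXI.SobW
import Pool.Agent.Q174.AXW.EnW
import Pool.Agent.Q234.AXW.DtW
import Pool.Agent.Q95.AXI.Gd
import Pool.Agent.Q95.AXP.Yd
import Pool.Agent.Q151.AXI.GR
import Pool.Agent.Q151.AXI.Der
import Pool.Agent.Q16.AXI.BQ
import Pool.Agent.Q16.AXI.Tra
import Pool.Agent.Q16.AXI.Mo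
import Pool.Agent.Q24.AXI.Cut
import Pool.Agent.Q24.AXI.YiP
import Pool.Agent.Q285.AXI.Reg
import Pool.Agent.Q285.AXI.Fin
import Pool.Agent.Q182.AXI.AAs
import Pool.Agent.Q182.AXI.T1P
import Pool.Agent.Q257.AXI.AxF
import Pool.Agent.Q257.AXI.Alg
import Pool.Agent.Q257.AXI.Div
import Pool.Agent.Q257.AXI.Kap
import Pool.Agent.Q257.AXI.H0
import Pool.Agent.Q153.AXI.Jnt
import Pool.Agent.Q153.AXI.EqJ
import Pool.Agent.Q153.AXI.EqW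
import Pool.Agent.Q153.AXI.Psi
import Pool.Agent.Q153.AXI.T2P
import Pool.Agent.Q150.AXI.EqO
import Pool.Agent.Q149.AXI.EqC
import Pool.Agent.Q119.AXI.Bar
import Pool.Agent.Q119.AXI.Dt
import Pool.Agent.Q119.AXI.Sob
import Pool.Agent.Q119.AXI.Who
import Pool.Agent.Q111.AXI.Cac
import Pool.Agent.Q95.CL.Far
import Pool.Agent.Q285.CL.WSc
import Pool.Agent.V8Lead.BtP

/-!
Projects AXI, AXP, AXQ: the assembly.
-/

set_option autoImplicit false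

namespace Pool.Agent.V8Lead

open Pool.Agent.Q67.AXI

theorem p_AAs : StmAAs := Pool.Agent.Q182.AXI.aas
theorem p_AxF : StmAxF := Pool.Agent.Q257.AXI.t_AxF p_AAs
theorem p_Alg : StmAlg := Pool.Agent.Q257.AXI.t_Alg p_AAs p_AxF
theorem p_Div : StmDiv := Pool.Agent.Q257.AXI.t_Div p_AAs p_AxF p_Alg
theorem p_Kap : StmKap := Pool.Agent.Q257.AXI.t_Kap p_AAs p_AxF p_Alg
theorem p_H0 : StmH0 := Pool.Agent.Q257.AXI.t_H0
theorem p_Jnt : StmJnt := Pool.Agent.Q153.AXI.t_Jnt p_AAs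
theorem p_EqC : StmEqC := Pool.Agent.Q149.AXI.t_EqC
theorem p_EqW : StmEqW := Pool.Agent.Q153.AXI.t_EqW p_AAs p_AxF p_Alg p_Jnt p_EqC
theorem p_EqJ : StmEqJ := Pool.Agent.Q153.AXI.t_EqJ p_AAs p_AxF p_Alg p_Jnt p_EqW
theorem p_EqO : StmEqO := Pool.Agent.Q150.AXI.t_EqO p_Alg
theorem p_Psi : StmPsi := Pool.Agent.Q153.AXI.t_Psi
theorem p_Bar : StmBar := Pool.Agent.Q119.AXI.stmBar p_Alg p_EqC
theorem p_Dt : StmDt := Pool.Agent.Q119.AXI.stmDt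
theorem p_Sob : StmSob := Pool.Agent.Q119.AXI.stmSob
theorem p_Who : StmWho := Pool.Agent.Q119.AXI.stmWho
theorem p_Tra : StmTra := Pool.Agent.Q16.AXI.tra'
theorem p_BQ : StmBQ := Pool.Agent.Q16.AXI.BQ.bq
theorem p_GR : StmGR := Pool.Agent.Q151.AXI.stmGR
theorem p_Der : StmDer := Pool.Agent.Q151.AXI.stmDer p_BQ
theorem p_Gd : StmGd := Pool.Agent.Q95.AXI.gd p_GR p_Der p_Kap
theorem p_Cut : StmCut := Pool.Agent.Q24.AXI.t_Cut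
theorem p_Reg : StmReg := Pool.Agent.Q285.AXI.reg
theorem p_En : Pool.Agent.Q67.AXI.StmEn := Pool.Agent.Q175.AX.en p_H0
theorem p_Cac : StmCac := Pool.Agent.Q111.AXI.cac p_Psi p_Alg p_Jnt p_Dt p_En p_EqW
theorem p_Sm : StmSm := Pool.Agent.Q175.AX.stmSm p_Alg p_Bar

-- the weighted part
theorem p_EllW : StmEllW := Pool.Agent.Q98.AXI.ellW p_AxF
theorem p_SobW : StmSobW := Pool.Agent.Q98.AXI.sobW
theorem p_UW : StmUW := Pool.Agent.Q177.AXI.uw p_Alg p_AxF p_Div p_EllW p_SobW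
theorem p_EnW : StmEnW := Pool.Agent.Q174.AXW.t_EnW
theorem p_DtW : StmDtW := Pool.Agent.Q234.AXW.DtW.dtW
theorem p_T1Q : StmT1Q := Pool.Agent.Q261.AXQ.t1q p_Alg p_AxF p_UW
theorem p_T2Q : StmT2Q := Pool.Agent.Q261.AXQ.t2q p_Alg
theorem p_FinW : StmFinW := Pool.Agent.Q177.AXI.finW p_Alg p_AxF p_Div p_Jnt p_Cac
theorem p_LogQ : StmLogQ := Pool.Agent.Q177.AXI.t_LogQ p_Alg p_Jnt p_Bar

theorem p_MainQ : ∃ dl : ℝ → ℝ → ℝ, StmMainQ dl ∧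
    ∀ μ c₂ : ℝ, 0 < μ → μ < 2 → 0 ≤ c₂ → 0 < dl μ c₂ := by
  obtain ⟨gm, dl, hYd⟩ := Pool.Agent.Q261.AXQ.ydq p_Alg p_AxF p_EqJ p_EqO p_Jnt p_EnW p_T1Q
    p_T2Q p_DtW
  have hWb : StmWbQ dl := Pool.Agent.Q261.AXQ.wbq gm dl p_Alg p_Jnt p_UW p_DtW p_Sm hYd
  exact ⟨dl, Pool.Agent.Q261.AXQ.mainq gm dl hYd hWb p_Gd p_LogQ p_Cut p_FinW p_Reg p_Alg,
    fun μ c₂ h1 h2 h3 => (hYd μ c₂ h1 h2 h3).2.2.2.1⟩

-- the part without weight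
theorem p_Har : StmHar := Pool.Agent.Q175.AX.har
theorem p_Ell : StmEll := Pool.Agent.Q175.AX.ell p_H0 p_AxF
theorem p_U : StmU := Pool.Agent.Q175.AX.stmU p_Alg p_AxF p_Div p_Ell p_Sob
theorem p_T1P : StmT1P := Pool.Agent.Q182.AXI.T1P.t_T1P p_Alg p_AxF p_Har p_U
theorem p_T2P : StmT2P := Pool.Agent.Q153.AXI.t_T2P p_Alg p_Har
theorem p_YdP : StmYdP := Pool.Agent.Q95.AXP.yd p_Alg p_AxF p_Div p_EqJ p_EqO p_Jnt p_Dt p_En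
  p_T1P p_T2P
theorem p_YiP : StmYiP := Pool.Agent.Q24.AXI.yiP p_Alg p_Jnt p_Dt p_U p_YdP
theorem p_BtP : StmBtP := btP p_Alg p_Jnt p_Dt p_U p_Sm p_YdP
theorem p_LogP : StmLogP := Pool.Agent.Q65.AXI.t_LogP p_Alg p_Jnt p_Bar
theorem p_Fin : StmFin := Pool.Agent.Q285.AXI.fin p_Alg p_AxF p_Div p_Jnt p_Cac
theorem p_Mo : StmMo := Pool.Agent.Q16.AXI.mo p_Alg p_AxF
theorem p_MainP : StmMainP := Pool.Agent.Q65.AXI.t_MainP p_Gd p_LogP p_Cut p_BtP p_YiP p_Fin p_Mo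
  p_Reg p_Alg

end Pool.Agent.V8Lead
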