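import Pool.Agent.V8Lead.AxDefs
import Pool.Agent.V8Lead.Axi

/-!
The two theorems for solutions in the whole space.
-/

set_option autoImplicit false

open MeasureTheory Set Metric Filter Topology
open scoped ContDiff

namespace Pool.Agent.V8Lead.Ax

open Pool.Agent.Q67.AXI Pool.Agent.Q85.CL

theorem Solution.wsl {ν T : ℝ} {u : ℝ → Sp → Sp} {p : ℝ → Sp → ℝ} (h : Solution ν T u p) :
    ∃ E : ℝ, WSl ν T E u p := by
  obtain ⟨E, hE⟩ := h.energy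
  exact ⟨E, h.smooth_u, h.smooth_p, h.divergence_free, h.momentum, fun t ht => (hE t ht).1,
    fun t ht => (hE t ht).2, h.dissipation, h.pressure⟩

theorem curl_eq (v : Sp → Sp) : curl v = Pool.Agent.W268.NS.vort v := rfl

theorem exists_singular {ν T : ℝ} {u : ℝ → Sp → Sp} {p : ℝ → Sp → ℝ} (hν : 0 < ν)
    (h : Solution ν T u p) (hB : BlowUp T u) : ∃ a, Singular T u a := by
  obtain ⟨E, hE⟩ := h.wsl
  exact sing_whole Pool.Agent.Q95.CL.far Pool.Agent.Q285.CL.wsc hν hE hB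

theorem singular_axis {ν T : ℝ} {u : ℝ → Sp → Sp} {p : ℝ → Sp → ℝ} (hν : 0 < ν)
    (h : Solution ν T u p) (hax : ∀ t ∈ Ioo 0 T, Axisymmetric (u t)) {a : Sp}
    (hs : Singular T u a) : a 0 = 0 ∧ a 1 = 0 := by
  obtain ⟨E, hE⟩ := h.wsl
  exact axis_W p_Tra p_Who p_GR hν hE hax hs

theorem inflow {ν T : ℝ} {u : ℝ → Sp → Sp} {p : ℝ → Sp → ℝ} (hν : 0 < ν)
    (h : Solution ν T u p) (hax : ∀ t ∈ Ioo 0 T, Axisymmetric (u t)) {a : Sp}
    (hs : Singular T u a) : Infl2 ν T u a := by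
  obtain ⟨E, hE⟩ := h.wsl
  obtain ⟨h0, h1⟩ := singular_axis hν h hax hs
  exact infl_D2 p_MainP p_Tra hν (whole_D hE a) (fun t ht θ x _ _ => hax t ht θ x)
    (mem_ball_self (by norm_num)) h0 h1 hs

theorem twosided {dl : ℝ → ℝ → ℝ} (hM : StmMainQ dl) {ν T : ℝ} {u : ℝ → Sp → Sp}
    {p : ℝ → Sp → ℝ} (hν : 0 < ν)
    (h : Solution ν T u p) (hax : ∀ t ∈ Ioo 0 T, Axisymmetric (u t)) {a : Sp}
    (hs : Singular T u a) {μ c₂ : ℝ} (hμ : 0 < μ) (hμ2 : μ < 2) (hc₂ : 0 ≤ c₂) :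
    Infl4 ν T μ c₂ (dl μ c₂ / 2) u a := by
  obtain ⟨E, hE⟩ := h.wsl
  obtain ⟨h0, h1⟩ := singular_axis hν h hax hs
  exact infl_D4 hM p_Tra hν (whole_D hE a) (fun t ht θ x _ _ => hax t ht θ x)
    (mem_ball_self (by norm_num)) h0 h1 hs hμ hμ2 hc₂

end Pool.Agent.V8Lead.Ax
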