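import Mathlib

/-!
Axisymmetric solutions of the Navier-Stokes equations: the definitions used in the statements.

`Sp = Fin 3 → ℝ` is the space `ℝ³` (with the maximum norm, which is only used for neighbourhoods and
for boundedness). The axis is the third coordinate axis, `ρ` is the distance to the axis.
-/

set_option autoImplicit false

open MeasureTheory Set Metric Filter Topology
open scoped ContDiff

namespace Pool.Agent.V8Lead.Ax

/-- The space `ℝ³`. -/
abbrev Sp := Fin 3 → ℝ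

/-- The partial derivative `∂_j f`. -/
noncomputable def part (j : Fin 3) (f : Sp → ℝ) (x : Sp) : ℝ := fderiv ℝ f x (Pi.single j 1)

/-- The vorticity `curl v`. -/
noncomputable def curl (v : Sp → Sp) (x : Sp) : Sp :=
  ![part 1 (fun y => v y 2) x - part 2 (fun y => v y 1) x,
    part 2 (fun y => v y 0) x - part 0 (fun y => v y 2) x,
    part 0 (fun y => v y 1) x - part 1 (fun y => v y 0) x]

/-- The rotation by the angle `θ` about the third axis. -/
noncomputable def rotZ (θ : ℝ) (x : Sp) : Sp :=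
  ![Real.cos θ * x 0 - Real.sin θ * x 1, Real.sin θ * x 0 + Real.cos θ * x 1, x 2]

/-- The vector field `v` is axisymmetric (the swirl may be non-zero). -/
def Axisymmetric (v : Sp → Sp) : Prop := ∀ (θ : ℝ) (x : Sp), v (rotZ θ x) = rotZ θ (v x)

/-- `ρ²`, the square of the distance to the axis. -/
def rho2 (x : Sp) : ℝ := x 0 ^ 2 + x 1 ^ 2

/-- `ρ v_ρ`, the distance to the axis times the radial component. -/
def rhoRad (v : Sp → Sp) (x : Sp) : ℝ := x 0 * v x 0 + x 1 * v x 1

/-- The circulation `Γ = ρ v_θ`, the distance to the axis times the swirl component. -/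
def swirl (v : Sp → Sp) (x : Sp) : ℝ := x 0 * v x 1 - x 1 * v x 0

/-- `(u, p)` is a smooth solution of the Navier-Stokes equations with viscosity `ν` and without
force on `(0, T) × ℝ³`, with bounded energy, finite dissipation and locally integrable pressure. -/
structure Solution (ν T : ℝ) (u : ℝ → Sp → Sp) (p : ℝ → Sp → ℝ) : Prop where
  smooth_u : ContDiffOn ℝ ∞ (fun z : ℝ × Sp => u z.1 z.2) (Ioo 0 T ×ˢ univ)
  smooth_p : ContDiffOn ℝ ∞ (fun z : ℝ × Sp => p z.1 z.2) (Ioo 0 T ×ˢ univ)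
  divergence_free : ∀ t ∈ Ioo 0 T, ∀ x, ∑ i, part i (fun y => u t y i) x = 0
  momentum : ∀ t ∈ Ioo 0 T, ∀ x i,
    deriv (fun s => u s x i) t + ∑ j, u t x j * part j (fun y => u t y i) x
      = ν * ∑ j, part j (part j (fun y => u t y i)) x - part i (p t) x
  energy : ∃ E : ℝ, ∀ t ∈ Ioo 0 T, Integrable (fun x => ∑ i, u t x i ^ 2) ∧
    ∫ x, ∑ i, u t x i ^ 2 ≤ E
  dissipation : IntegrableOn (fun z : ℝ × Sp => ∑ i, ∑ j, part j (fun y => u z.1 y i) z.2 ^ 2)
    (Ioo 0 T ×ˢ univ)
  pressure : ∀ R : ℝ, IntegrableOn (fun z : ℝ × Sp => p z.1 z.2) (Ioo 0 T ×ˢ ball 0 R)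

/-- `u` is not bounded on any time interval `(T₀, T)`: the time `T` is a blow-up time. -/
def BlowUp (T : ℝ) (u : ℝ → Sp → Sp) : Prop :=
  ∀ M T₀ : ℝ, T₀ < T → ∃ t ∈ Ioo 0 T, T₀ < t ∧ ∃ x, M < ‖u t x‖

/-- `u` is unbounded in every neighbourhood of the point `(T, a)`: the point `a` is a singular point
at the time `T`. -/
def Singular (T : ℝ) (u : ℝ → Sp → Sp) (a : Sp) : Prop :=
  ∀ M δ : ℝ, 0 < δ → ∃ t ∈ Ioo 0 T, T - δ < t ∧ ∃ x, ‖x - a‖ ≤ δ ∧ M < ‖u t x‖

end Pool.Agent.V8Lead.Ax
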